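import Pool.Agent.J4.H71.BQ.G

/-!
# Bloch's conjecture for quotients of products of curves

Let `k` be an algebraically closed field of characteristic zero, for instance an algebraic closure of
a number field. For `a` in a finite set `A` let `C_a` be a smooth projective curve over `k` with an
action of a finite abelian group `G_a`. Let `n_a ≥ 0` be integers and let `Y` be the product of the
varieties `C_a ^ n_a`. The factors `C_a` of `Y` are called its positions, these are the pairs
`s = (a, i)` with `1 ≤ i ≤ n_a`. The product of the wreath products `G_a ≀ S_(n_a)` acts on `Y`. Let
`H` be a finite group which acts on `Y` through this group (`WreathAction`), in an arbitrary way: for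
example any subgroup of it. Finally let `λ` be a homomorphism from `H` to `{1, -1}`, for instance
`λ = 1`.

We consider the quotient variety `Y / H`, or for `λ ≠ 1` the part of `Y` on which `H` acts by `λ`.
Its zero-cycles with rational coefficients are given by the cycles `∑ λ(h) h(z)` on `Y`, `z` any
zero-cycle on `Y` (`average`); the Chow group of the zero-cycles with rational coefficients of `Y / H`
is the same as that of its resolutions.

For every character `χ` of `G_a` we need a number `ν_a(χ)` (`Bound`), which is at least the dimension
of the space `Ω(χ)` of the holomorphic differential forms on `C_a` on which `G_a` acts by `χ`, with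
equality in the first two cases and for pairs in the third one:

* `χ = 1`, where `ν_a(χ)` is the genus of `C_a / G_a`;
* `χ` has the order two and the corresponding double cover of `C_a / G_a` has branch points or
  `C_a / G_a` is rational, elliptic or hyperelliptic, or the two curves have the same genus;
* `χ` has any order, and the local monodromies of the cover of `C_a / G_a` given by `χ` can be
  divided into pairs which are inverse to each other; then `ν_a(χ) = g - 1 + M / 2`, where `g` is the
  genus of `C_a / G_a` and `M > 0` the number of the branch points belonging to `χ`. More generally,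
  `ν_a(χ) = g - 1 + M - B` if they can be divided into `B` blocks with trivial product; this is at
  least the dimension of `Ω(χ)`, by the formula of Chevalley and Weil;
* in all cases the genus of `C_a / ker χ` can be taken.

The holomorphic differential forms on `Y` are generated by the products of forms on the factors: for
every set `J` of positions we have the space of the forms of degree `card J` which are exterior
products of forms `ω_s` on the factors `s ∈ J`, with the basis given by characters `κ_s` and the
elements of bases of `Ω(κ_s)`, which are numbered by the integers `c_s < ν(κ_s)`. The group `H`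
permutes these basis elements for all `J` up to factors in `kˣ`: if `h` in `H` fixes `J`, `κ`, `c`,
then the factor is the sign of the permutation of `J` given by `h` times the product of the values
of the characters `κ_s` at the components of `h`. The condition `NoForms` for `J` says that for
every basis element belonging to `J` there is an `h` in `H` for which this factor is not `λ(h)`. If the
numbers `ν` are the dimensions, this means that there are no nonzero forms on which `H` acts by `λ`
whose component belonging to `J` is nonzero.

**Theorem.** Let `z` be a zero-cycle on `Y` and `z' = ∑ λ(h) h(z)`. If for every set `J` of positions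
there are no forms in this sense or the image of `z'` in the product of the factors in `J` is torsion
in the Chow group, then `z'` is torsion in the Chow group of `Y`.

For `J = ∅` and `J = {s}` the second alternative says that the degree of `z'` is zero and that the
image of `z'` in the Jacobian variety of the factor `s` is torsion. In particular:

(1) (Bloch's conjecture for the varieties `Y / H`) If the numbers `ν` are equal to the dimensions and
`Y / H` has no holomorphic forms of degree at least two, then all zero-cycles of degree zero on
`Y / H` with trivial image in the Albanese variety are torsion (and then zero in the Chow group of a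
resolution, by Roitman's theorem). If there are no holomorphic forms of positive degree then `CH_0` is
`ℤ` up to torsion. The condition is necessary if `k` is the field of the complex numbers, by
Mumford's theorem.

(2) For the powers `S ^ n` of a variety `S = Y / H` and the wreath product of `H` and `S_n`, with the
sign of `S_n`, one gets the conjecture of Voisin: if `S = (C_1 × C_2) / G` for a finite abelian group
`G` with the bounds equal to the dimensions and `n > p_g(S)`, then the alternating sums of the
exterior products of `n` zero-cycles in the kernel of the Albanese map are torsion. (For the sets `J`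
which do not contain both positions belonging to every factor `S` the second alternative holds. For
the set `J` of all positions `NoForms` holds: if `κ` is `G ^ n`-invariant then two of the `n` factors
`S` have the same characters and numbers, and their exchange is an even permutation of `J` with
`λ = -1`.)

Relation to the problem. If `Y` and the actions are defined over a number field `F` and `X` is a
resolution of singularities of `Y / H` of dimension `d`, then the zero-cycles in question are the cycles
of codimension `d` on `X` which are homologically trivial and have trivial Abel-Jacobi invariant; the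
theorem proves that they are torsion (the Chow groups over `F` with rational coefficients are
contained in those over the algebraic closure), that is Q1 for the zero-cycles on the varieties in
(1). For surfaces such results follow from the finite-dimensionality of the motives of curves in the
sense of Kimura and the Lefschetz theorem on `(1,1)`-classes; in higher dimensions this would need the
generalized Hodge conjecture.

The proof uses the vanishing theorems for symmetrized products of `ν + 1` isotypic zero-cycles on one
curve: `van_trivK` (Bloch), files of helper18, helper64 (`van_blocks`) and helper82 (characters of order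
two). A functional on the zero-cycles of `Y` which vanishes on the cycles rationally equivalent
to zero, made semi-invariant under `H`, is expanded into its isotypic components; a component gives a
function on the symmetric group of the set `J` of the positions with nontrivial labels, whose sums
over the permutations of `ν + 1` positions with the same character vanish. A lemma of helper70,
generalized here to arbitrary fields of coefficients, says that such a function is zero if for every
colouring there is an additional symmetry with the wrong factor.
-/

set_option autoImplicit false

open FF IntermediateField Equiv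

namespace Pool.Agent.Results.MP_e28333_ag.BlochQuotients

open Pool.Agent.J4.H17.ZC Pool.Agent.J4.H27.BB

section bound

variable {k : Type} [Field k] {K : Type} [Field K] [Algebra k K] {H : Type} [Group H]

/-- The values of the character `χ ≠ 1` of the group `H` acting on the curve `C` are `1` and `-1`,
`ν` is the difference of the genera of `C / ker χ` and `C / H`, and `ν = 0` or the double cover from
`C / ker χ` to `C / H` has branch points or `C / H` has a function of degree two. -/
def OrderTwo (β : H →* (K ≃ₐ[k] K)) (χ : H →* kˣ) (ν : ℕ) : Prop :=
  (∀ h, χ h = 1 ∨ χ h = -1) ∧ ∃ g, HasGenus k (fixedField β.range) g ∧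
    HasGenus k (fixedField (χ.ker.map β)) (g + ν) ∧
    (ν = 0 ∨ (∃ (h : H) (P : Place k K), χ h ≠ 1 ∧ act (β h) P = P) ∨
      ∃ t : fixedField β.range, Transcendental k t ∧
        Module.finrank k⟮t⟯ (fixedField β.range) = 2)

/-- The number `ν` for a character `χ` whose branch points are divided into blocks: `ν + 1 + B =
g + M`, `g` the genus of `C / H`, if `w` is a nonzero function with `h w = χ(h) w`, `w ^ m = f` is a
function on `C / H`, the order of `f` is not divisible by `m` at exactly `M ≥ 1` points, and these
points can be divided into `B` nonempty blocks such that the sum of the orders of `f` at the points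
of every block is divisible by `m`. -/
def Blocks (β : H →* (K ≃ₐ[k] K)) (χ : H →* kˣ) (ν : ℕ) : Prop :=
  ∃ (g M B m : ℕ) (w : K) (f : fixedField β.range) (b : Fin M → Place k (fixedField β.range))
    (q : Fin M → Fin B),
    HasGenus k (fixedField β.range) g ∧ 0 < M ∧ 0 < m ∧ ν + 1 + B = g + M ∧ w ≠ 0 ∧
    (∀ h, β h w = algebraMap k K (χ h) * w) ∧ w ^ m = (f : K) ∧ Function.Injective b ∧
    Function.Surjective q ∧
    (∀ v : Place k (fixedField β.range), ¬ (m : ℤ) ∣ v.ord f ↔ ∃ j, b j = v) ∧
    ∀ i, (m : ℤ) ∣ ∑ j, if q j = i then (b j).ord f else 0

/-- The number `ν` for a character `χ` of the group `H` acting on the curve `C`: the genus of `C/H`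
if `χ = 1`; the genus of `C/ker χ` or the number in `OrderTwo` or in `Blocks` if `χ ≠ 1`. -/
def Bound (β : H →* (K ≃ₐ[k] K)) (χ : H →* kˣ) (ν : ℕ) : Prop :=
  (χ = 1 ∧ HasGenus k (fixedField β.range) ν) ∨
    (χ ≠ 1 ∧ (HasGenus k (fixedField (χ.ker.map β)) ν ∨ OrderTwo β χ ν ∨ Blocks β χ ν))

end bound

section action

variable {A : Type} {H : Type} [Group H] {G : A → Type} [∀ a, Group (G a)] {n : A → ℕ}

/-- A homomorphism from `H` to the product of the wreath products of the groups `G a` and the
symmetric groups of degrees `n a`: `h` is mapped to the permutations `perm h a` and the elements
`elt h a i` of `G a`. -/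
structure WreathAction (H : Type) [Group H] {A : Type} (G : A → Type) [∀ a, Group (G a)]
    (n : A → ℕ) where
  /-- the permutations -/
  perm : H →* ∀ a, Perm (Fin (n a))
  /-- the components in the groups `G a` -/
  elt : H → ∀ a, Fin (n a) → G a
  /-- the multiplication in the wreath product -/
  elt_mul : ∀ h h' a i, elt (h * h') a i = elt h a i * elt h' a ((perm h a)⁻¹ i)

/-- The permutation of all the positions `s = (a, i)` given by an element of `H`. -/
def WreathAction.move (w : WreathAction H G n) (h : H) : Perm (Σ a, Fin (n a)) :=
  Equiv.sigmaCongrRight (w.perm h)

variable {k : Type} [Field k] {K : A → Type} [∀ a, Field (K a)] [∀ a, Algebra k (K a)]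

/-- The action of `H` on the product `Y` of the powers `C_a ^ (n a)` of the curves with function
fields `K a`. -/
noncomputable def WreathAction.map (w : WreathAction H G n) (β : ∀ a, G a →* (K a ≃ₐ[k] K a))
    (h : H) (y : ∀ s : Σ a, Fin (n a), Place k (K s.1)) :
    ∀ s : Σ a, Fin (n a), Place k (K s.1) := fun s =>
  act (β s.1 (w.elt h s.1 s.2)) (y ⟨s.1, (w.perm h s.1)⁻¹ s.2⟩)

/-- The cycle `∑ λ(h) h(z)`. -/
noncomputable def WreathAction.average [Fintype H] (w : WreathAction H G n)
    (β : ∀ a, G a →* (K a ≃ₐ[k] K a)) (lam : H →* ℤˣ)
    (z : (∀ s : Σ a, Fin (n a), Place k (K s.1)) →₀ ℤ) :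
    (∀ s : Σ a, Fin (n a), Place k (K s.1)) →₀ ℤ :=
  ∑ h : H, ((lam h : ℤˣ) : ℤ) • Finsupp.mapDomain (w.map β h) z

variable [DecidableEq A]

variable (k) in
/-- For all characters `κ s` and numbers `c s < ν (κ s)` for the positions `s` in `J` there is an
element `h` of `H` which maps `J` to itself and preserves `κ` and `c`, such that the product of
`λ(h)`, of the sign of the permutation of `J` given by `h` and of the values of the characters `κ s`
at the components of `h` at the positions `s` in `J` is not one. -/
def NoForms (ν : ∀ a, (G a →* kˣ) → ℕ) (w : WreathAction H G n) (lam : H →* ℤˣ)
    (J : Finset (Σ a, Fin (n a))) : Prop :=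
  ∀ (κ : ∀ s : Σ a, Fin (n a), G s.1 →* kˣ) (c : (Σ a, Fin (n a)) → ℕ),
    (∀ s ∈ J, c s < ν s.1 (κ s)) →
    ∃ (h : H) (hJ : ∀ s, w.move h s ∈ J ↔ s ∈ J),
      (∀ s ∈ J, κ ⟨s.1, w.perm h s.1 s.2⟩ = κ s ∧ c ⟨s.1, w.perm h s.1 s.2⟩ = c s) ∧
      ((lam h : ℤ) : k) * ((Perm.sign ((w.move h).subtypePerm hJ) : ℤ) : k) *
        ∏ s ∈ J, ((κ s (w.elt h s.1 s.2) : kˣ) : k) ≠ 1

end action

/-- **Theorem.** Let `C_a` be smooth projective curves (with function fields `K a`) over the
algebraically closed field `k` of characteristic zero, with actions of finite abelian groups `G a`,
and let `ν a χ` be the bounds for the characters `χ` of `G a`. Let the finite group `H` act on the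
product `Y` of the varieties `C_a ^ (n a)` through the product of the wreath products of `G a` and the
symmetric group of degree `n a`, and let `λ` be a homomorphism from `H` to `{1, -1}`. Let `z` be a
zero-cycle on `Y` and `z' = ∑ λ(h) h(z)`. If for every set `J` of positions `NoForms` holds or a
positive multiple of the image of `z'` in the product of the factors of `Y` at the positions in `J` is
rationally equivalent to zero, then a positive multiple of `z'` is rationally equivalent to zero
on `Y`. -/
theorem result {k : Type} [Field k] [IsAlgClosed k] [CharZero k] {A : Type} [Fintype A]
    [DecidableEq A] (K : A → Type) [∀ a, Field (K a)] [∀ a, Algebra k (K a)] [∀ a, IsFF k (K a)]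
    (G : A → Type) [∀ a, CommGroup (G a)] [∀ a, Fintype (G a)]
    (β : ∀ a, G a →* (K a ≃ₐ[k] K a)) (ν : ∀ a, (G a →* kˣ) → ℕ)
    (hν : ∀ a χ, Bound (β a) χ (ν a χ)) (n : A → ℕ) (H : Type) [Group H] [Fintype H]
    (w : WreathAction H G n) (lam : H →* ℤˣ)
    (z : (∀ s : Σ a, Fin (n a), Place k (K s.1)) →₀ ℤ)
    (hz : ∀ J : Finset (Σ a, Fin (n a)), NoForms k ν w lam J ∨ ∃ N : ℕ, 0 < N ∧
      N • Finsupp.mapDomain (fun (y : ∀ s : Σ a, Fin (n a), Place k (K s.1))
        (s : {s // s ∈ J}) => y s.1) (w.average β lam z) ∈
          RatEq (varPi fun s : {s // s ∈ J} => curve k (K s.1.1))) :
    ∃ N : ℕ, 0 < N ∧ N • w.average β lam z ∈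
      RatEq (varPi fun s : Σ a, Fin (n a) => curve k (K s.1)) := by
  refine Pool.Agent.J4.H71.BQ.main (π := w.perm) (g := w.elt) w.elt_mul (lam := lam) (ν := ν)
    ?_ ?_ z hz
  · intro a
    rcases hν a 1 with ⟨-, h⟩ | ⟨h, -⟩
    · exact h
    · exact absurd rfl h
  · intro a χ hχ
    rcases hν a χ with ⟨h, -⟩ | ⟨-, h | ⟨hpm, g, h1, h2, h3⟩ |
      ⟨g, M, B, m, u, f, b, q, hg, hM, hm, hν, hu0, hu, huf, hb, hq, hB, hsum⟩⟩
    · exact absurd h hχ
    · exact Pool.Agent.J4.H71.BQ.van_kerK (β a) χ hχ h
    · exact Pool.Agent.J4.H71.BQ.van_two (β a) χ hχ hpm h1 h2 h3
    · exact Pool.Agent.J4.H71.BQ.van_blocksK (β a) χ b q hg hM hm (by omega) hu0 hu huf hb hq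
        hB hsum

end Pool.Agent.Results.MP_e28333_ag.BlochQuotients
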