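import Pool.Agent.J4.H27.BB.Cov

/-!
# The conjecture of Beilinson and Bloch for exterior products: bounds by the Davenport constant

For a product `Y₁ × … × Yₙ` of `n ≥ 2` smooth projective varieties over a number field the exterior
products `a₁ × … × aₙ` of zero-cycles of degree zero are homologically trivial, and their images in
the Albanese variety of the product are zero. So according to Q1 they are torsion. We prove this for
zero-cycles which come from orbits of a finite group, if `n` is large compared with the number of
orbits.

Let `X` be a variety over an algebraically closed field `k` of characteristic zero, for instance the
field of the algebraic numbers, with an action of a finite group `G`, and let `q_1, …, q_s` be points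
of `X`. Suppose that for each `j` the group `G` is generated by normal subgroups `N` which fix a point
`o` of `X` such that `∑_g g q_j - ∑_g g o` is torsion in `CH_0(X)`. Suppose that `D` is

* the order of `G`, or
* if `G` is abelian, the Davenport constant of `G`: the smallest number such that each sequence of
  `D` elements of `G` has a nonempty subsequence with product `1`, or
* any number such that a function on `G^D` is zero if for all nonempty sets `S` of positions its sum
  over the simultaneous right translations in the positions `S` is zero.

Let `Y_1, …, Y_n` be varieties and `a_i` a zero-cycle on `Y_i` with a positive multiple in the group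
generated by the zero-cycles rationally equivalent to zero and by the images `f_*(g q_j - q_j)` under
all morphisms `f : X → Y_i`. If `n > s (D - 1)`, then `a_1 × … × a_n` is a torsion element of the Chow
group of zero-cycles of `Y_1 × … × Y_n`.

The conditions hold if `G` is abelian and generated by elements with a fixed point on `X`, and
the Chow group of zero-cycles of `X/G` has rank one; then all zero-cycles of degree zero supported on
the orbits of the `q_j` have positive multiples which are sums of multiples of `g q_j - q_j` and
cycles rationally equivalent to zero. Examples. (1) `X` is an abelian covering of `P^m` with group
`G`. For the complete intersections of diagonal quadrics in `P^r` (for example the Humbert curves and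
their generalizations, of genus `2^(r-2) (r-3) + 1`) `G = (ℤ/2)^r`, `D = r + 1`, and `n > s r`. For
the complete intersections of diagonal hypersurfaces of degree `m` in `P^r` and a prime power `m`
one has `D = r (m - 1) + 1`. (2) `G = ℤ/2`, `D = 2`: double coverings of rationally connected
varieties, for example K3 surfaces with an involution with rational quotient. Exterior products of
`n > s` zero-cycles of degree zero supported on `s` points and their conjugates are torsion.

Proof. (a) If `F : X → X^n` is of the form `P ↦ (g_i P for i in S, x_i for i outside S)` then the
images of `∑_g g q` and `∑_g g o` are rationally equivalent up to torsion. So in the functional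
`Λ(u_1, …, u_n) = l(u_1 q × … × u_n q)` on the group ring, for a functional `l` on the Chow group, the
sum over the simultaneous right translations in the positions `S ≠ ∅` does not change if `q` is
replaced by `o` in these positions. It is zero if one `u_i` with `i ∈ S` is in the ideal generated by
the elements `ν - 1` with `ν` in a normal subgroup which fixes `o`. The sum of these ideals is the
augmentation ideal. (b) A function on `G^D` whose partial averages are zero is zero. For
`D = #G` this follows from the expansion of `∏_i (x_i c_i⁻¹ h - x_i) = 0` where `c_i` runs through
`G` and `h ∈ G` (the argument of Benson and Fogarty for the bound of Noether). For an abelian group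
the Fourier coefficient at a character `(χ_1, …, χ_D)` is zero if a nonempty subsequence of the
`χ_i` has product `1`. (c) The pigeonhole principle.
-/

set_option autoImplicit false

open FF

namespace Pool.Agent.Results.MP_e28333_ag.GroupActions

open Pool.Agent.J4.H17.ZC Pool.Agent.J4.H27.BB

/-- The exterior product of `n > s (D - 1)` zero-cycles on the varieties `Y i`, which have positive
multiples in the groups generated by the zero-cycles rationally equivalent to zero and by the images
of the zero-cycles `h • q j - q j`, is in the kernel of the Albanese map (its images in all the
varieties `Y i` are zero) and is a torsion element of the Chow group. -/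
theorem result {k : Type} [Field k] [IsAlgClosed k] [CharZero k] (X : Var k) (hX : X.Const)
    (G : Type) [Group G] [Fintype G] [MulAction G X.Pt]
    (hG : ∀ g : G, Reg (X := X) (Y := X) fun x => g • x) (D : ℕ) (hD : DecompBound G D) (s : ℕ)
    (q : Fin s → X.Pt) (hq : ∀ j, Subgroup.closure (Fixers X G (q j)) = ⊤) (n : ℕ)
    (hn : s * (D - 1) < n) (Y : Fin n → Var k) (hY : ∀ i, (Y i).Const)
    (a : ∀ i, (Y i).Pt →₀ ℤ)
    (ha : ∀ i, ∃ N : ℕ, 0 < N ∧ N • a i ∈ imagesV X (Y i) fun t : Fin s × G =>
      Finsupp.single (t.2 • q t.1) 1 - Finsupp.single (q t.1) 1) :
    (2 ≤ n → ∀ i, Finsupp.mapDomain (fun x : ∀ i, (Y i).Pt => x i) (prodCycle a) = 0) ∧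
    ∃ N : ℕ, 0 < N ∧ N • prodCycle a ∈ RatEq (varPi Y) :=
  cov_thm hX hG hD q hq hn Y hY a ha

end Pool.Agent.Results.MP_e28333_ag.GroupActions
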