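import Pool.Agent.J4.H64.BC.Main

/-!
# Zero-cycles on powers of ramified cyclic covers of arbitrary curves

Let `C` be a smooth projective curve with an action of a finite group `G` over the algebraically
closed field `k` of characteristic zero, let `D = C / G`, a curve of arbitrary genus `g`, and let
`χ` be a character of `G` with values in the group of the `m`-th roots of unity, where `m` is
arbitrary. For example `C → D` can be any cyclic cover of degree `m`. There is a nonzero function `w`
on `C` on which `G` acts by the character `χ`, and `f = w ^ m` is a function on `D`: the cover given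
by `χ` is the curve `w ^ m = f` over `D`. Let `M` be the number of the branch points, the points of
`D` at which the order of `f` is not divisible by `m`; we assume `M ≥ 1`.

Let `h¹(C)_χ` be the part of the motive `h¹(C)` on which `G` acts by the characters `χ ^ a` with `a`
prime to `m` (the conjugates of `χ`), a motive with multiplication by `E = ℚ(ζ)`, `ζ` a primitive
`m`-th root of unity. For a variety `X` we consider the motive

  `Λ^n h¹(C)_χ ⊗ h(X)`,

where the exterior power is taken over `E`. It is the submotive of the motive of `C ^ n × X` cut out
by the symmetric group and by the characters `(χ ^ a, …, χ ^ a)` of `G ^ n`, `a` prime to `m`. Up to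
the action of `E`, the images of the points `(x, p)` are the cycles `isotypic`, where `c` is a
function on `ℤ/m` all of whose Fourier coefficients at the integers which are not prime to `m` vanish
(`Prim`; for a prime number `m` this means only that the sum of the values of `c` is zero).

The theorem: this motive has no zero-cycles with rational coefficients, that is, some positive
multiple of every cycle `isotypic` is rationally equivalent to zero, in the following cases.

(a) `n ≥ g + M - B`, and the set of the `M` branch points can be divided into `B` nonempty subsets
such that the sum of the orders of `f` at the points of each of them is divisible by `m`. (If these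
subsets are pairs, `n ≥ g + M - B` if and only if there are no holomorphic `n`-forms in
`Λ^n H¹(C)_χ`, because all the dimensions mentioned in (b) are `g - 1 + M / 2`.)

(b) `m ≤ 5` or `m = 7`, or the orders of `f` at all points with at most one exception are divisible
by `m` or congruent modulo `m` to one and the same integer prime to `m` (for example the curves
`y ^ m = P(x)` with a squarefree polynomial `P`, for all `m`), and there are no holomorphic `n`-forms
in `Λ^n H¹(C)_χ`. In fact, by the formula of Chevalley and Weil the dimension of the space of the
holomorphic differential forms on `C` on which `G` acts by the character `χ ^ (- j)` is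
`g - 1 + resid (f ^ j) / m`, where `resid` is the sum of the residues modulo `m` of the orders, and
the condition is that `n` is greater than these dimensions for all `j` prime to `m`.

By Mumford's theorem the condition on the forms in (b) is necessary for the vanishing of the
zero-cycles if `k` is the field of the complex numbers.

Relation to the problem. Let all the data be defined over a number field `K` (where `G` may be a
finite group scheme over `K`), `k` an algebraic closure of `K`, `X` smooth and projective, `d` the
dimension of `Y = C ^ n × X` and `n ≥ 2`. The cohomology of the motive lies in the degrees from `n`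
to `2 d - n`, so that the parts of `H^{2 d - 1}(Y)` and `H^{2 d}(Y)` belonging to it are zero, its
zero-cycles are homologically trivial and have trivial Abel-Jacobi images, and Q1 for `i = d` (for
the Weil restriction of `Y` to `ℚ`) says that they are zero for rational coefficients. The theorem
shows this, since the rational Chow groups over `K` are contained in those over `k`.

The idea of the proof. A functional on the zero-cycles which vanishes on the cycles rationally
equivalent to zero is made symmetric and equivariant for one of the characters; then it vanishes on
the points with a coordinate over a branch point. For a general point `x` of `C ^ n` there is a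
pencil of divisors on `D` containing the image of `x` and such that the map to the projective line
defined by it takes equal values at all the branch points which are in the same block, but for one of
them; this needs `M - B - 1` conditions, and by the theorem of Riemann-Roch there is such a pencil if
`n ≥ g + M - B`. The product of the values of `f` at the points of the divisors of the pencil is up
to an `m`-th power a power of a quotient of two linear functions of the parameter, therefore the
functional is locally constant along a rational curve of configurations of points of `C`, one of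
which contains a branch point.
-/

set_option autoImplicit false

open FF IntermediateField

namespace Pool.Agent.Results.MP_e28333_ag.IsotypicCyclicCovers

open Pool.Agent.J4.H17.ZC

section defs

variable (k : Type) [Field k]

open scoped Classical in
/-- The set of the points of the curve with function field `F` at which the order of the function
`f` is not divisible by `m`. -/
noncomputable def branch [CharZero k] {F : Type} [Field F] [Algebra k F] [IsFF k F] (m : ℕ)
    (f : F) : Finset (Place k F) :=
  (divisor k f).support.filter fun v => ¬ (m : ℤ) ∣ v.ord f

/-- The sum of the residues modulo `m`, between `0` and `m - 1`, of the orders of the function `f`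
at the points of the curve with function field `F`. -/
noncomputable def resid [CharZero k] {F : Type} [Field F] [Algebra k F] [IsFF k F] (m : ℕ)
    (f : F) : ℤ :=
  (divisor k f).sum fun _ n => n % m

/-- The branch points can be divided into `B` nonempty subsets such that the sum of the orders of
`f` at the points of each of them is divisible by `m`. -/
def Blocks [CharZero k] {F : Type} [Field F] [Algebra k F] [IsFF k F] (m : ℕ) (f : F)
    (B : ℕ) : Prop :=
  ∃ b : Place k F → Fin B, ∀ i, (∃ v ∈ branch k m f, b v = i) ∧
    (m : ℤ) ∣ ∑ v ∈ branch k m f, if b v = i then v.ord f else 0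

/-- `m ≤ 5`, or `m = 7`, or there are an integer `e` prime to `m` and a point `v₀`, such that the
orders of `f` at all points but `v₀` are divisible by `m` or congruent to `e` modulo `m`. -/
def Special {F : Type} [Field F] [Algebra k F] (m : ℕ) (f : F) : Prop :=
  m ≤ 5 ∨ m = 7 ∨ ∃ (e : ℕ) (v₀ : Place k F), e.Coprime m ∧
    ∀ v : Place k F, v ≠ v₀ → (m : ℤ) ∣ v.ord f ∨ (m : ℤ) ∣ v.ord f - e

/-- The condition on the number `n`; here `g` is the genus of the curve with function field `F`,
and the set of the branch points of the cover of degree `m` given by `f` has `card (branch f)`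
elements. Either

* the branch points can be divided into `B` blocks and `n ≥ g + card (branch f) - B`, or
* `f` is special, and `n ≥ g + resid (f ^ j) / m` for all `j` prime to `m`. -/
def Enough [CharZero k] {F : Type} [Field F] [Algebra k F] [IsFF k F] (m : ℕ) (f : F)
    (g n : ℕ) : Prop :=
  (∃ B, Blocks k m f B ∧ g + (branch k m f).card ≤ n + B) ∨
    (Special k m f ∧ ∀ j : ℕ, j.Coprime m → (m : ℤ) * g + resid k m (f ^ j) ≤ m * n)

variable {k}

/-- The group `G` acts by the character `h ↦ ζ ^ χ(h)` on a nonzero function `w`, and the function
`f` on the quotient is `w ^ m`. -/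
def Kummer (ζ : k) {K : Type} [Field K] [Algebra k K] {G : Type} [Group G]
    (β : G →* (K ≃ₐ[k] K)) {m : ℕ} (χ : G →* Multiplicative (ZMod m))
    (f : fixedField β.range) : Prop :=
  ∃ w : K, w ≠ 0 ∧
    (∀ h, β h w = algebraMap k K (ζ ^ (Multiplicative.toAdd (χ h)).val) * w) ∧ (f : K) = w ^ m

/-- For every prime divisor `q` of `m` the sums of the values of the function `c` over the cosets of
the subgroup of order `q` of `ℤ/m` are zero. -/
def Prim (m : ℕ) (c : ZMod m → ℤ) : Prop :=
  ∀ q : ℕ, q.Prime → q ∣ m → ∀ s : ZMod m,
    ∑ i ∈ Finset.range q, c (s + (i : ZMod m) * ((m / q : ℕ) : ZMod m)) = 0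

/-- The cycle `∑_π ∑_h c(χ(h_1) + … + χ(h_n)) [(h_1 x_π(1), …, h_n x_π(n)), p]`, the sum over all
permutations `π` and all elements `h` of `G ^ n`. -/
noncomputable def isotypic {K : Type} [Field K] [Algebra k K] {G : Type} [Group G] [Fintype G]
    (β : G →* (K ≃ₐ[k] K)) {m : ℕ} (χ : G →* Multiplicative (ZMod m)) (c : ZMod m → ℤ)
    {n : ℕ} {A : Type} (x : Fin n → Place k K) (p : A) : ((Fin n → Place k K) × A) →₀ ℤ :=
  ∑ π : Equiv.Perm (Fin n), ∑ h : Fin n → G,
    c (∑ i, Multiplicative.toAdd (χ (h i))) •
      Finsupp.single ((fun i => act (β (h i)) (x (π i))), p) 1

end defs

/-- **Theorem.** Let `C` be a smooth projective curve (given by its function field `K`) over the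
algebraically closed field `k` of characteristic zero with an action `β` of a finite group `G`, let
`g` be the genus of `C / G` and let `χ` be a homomorphism from `G` to `ℤ/m`. Let `f` be the function
`w ^ m` on `C / G`, where `w` is a nonzero function on which `G` acts by the character `ζ ^ χ`, `ζ`
a primitive `m`-th root of unity, let the order of `f` at some point be not divisible by `m`, and let
`n` be a number which satisfies the condition `Enough`. Let `c` be a function on `ℤ/m` in which only
primitive characters occur and let `X` be a variety. Then for all points `x` of `C ^ n` and `p` of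
`X` a positive multiple of the cycle `isotypic` is rationally equivalent to zero on `C ^ n × X`. -/
theorem result {k : Type} [Field k] [CharZero k] [IsAlgClosed k] {m : ℕ} [NeZero m] {ζ : k}
    (hζ : IsPrimitiveRoot ζ m) {K : Type} [Field K] [Algebra k K] [IsFF k K]
    {G : Type} [Group G] [Fintype G] (β : G →* (K ≃ₐ[k] K)) [IsFF k (fixedField β.range)] {g : ℕ}
    (hg : HasGenus k (fixedField β.range) g) (χ : G →* Multiplicative (ZMod m))
    (f : fixedField β.range) (hf : Kummer ζ β χ f) (hM : (branch k m f).Nonempty) {n : ℕ}
    (hn : Enough k m f g n) (c : ZMod m → ℤ) (hc : Prim m c)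
    (X : Var k) (hX : ∀ (L : Type) [Field L] [Algebra k L] (p : X.Pt), X.IsMor L fun _ => p)
    (x : Fin n → Place k K) (p : X.Pt) :
    ∃ N : ℕ, 0 < N ∧ N • isotypic β χ c x p ∈ RatEq (((curve k K).pow (Fin n)).prod X) := by
  classical
  obtain ⟨w, hw0, hw, hwf⟩ := hf
  have hS : ∀ v, v ∈ branch k m f ↔ ¬ (m : ℤ) ∣ v.ord f :=
    fun v => J4.H82.CC.mem_Brm (m := m) (δ := f)
  have hm1 : 1 < m := by
    obtain ⟨v, hv⟩ := hM
    have h0 : m ≠ 0 := NeZero.ne m
    have h1 : m ≠ 1 := by
      rintro h
      apply (hS v).1 hv
      rw [h]
      simp
    omega
  -- the blocks
  obtain ⟨B, ⟨b, hb⟩, hT⟩ : ∃ B, Blocks k m f B ∧ g + (branch k m f).card ≤ n + B := by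
    rcases hn with h | ⟨h, hn⟩
    · exact h
    · have hres : ∀ j : ℕ, resid k m (f ^ j) =
          ∑ v ∈ branch k m f, (j * v.ord f) % (m : ℤ) := by
        intro j
        have h1 : resid k m (f ^ j) = ∑ v ∈ J4.H82.CC.Brm (k := k) m (f ^ j),
            v.ord (f ^ j) % m := J4.H82.CC.resid_eq m (f ^ j)
        rw [h1]
        have h2 : ∀ v : Place k (fixedField β.range), v.ord (f ^ j) = j * v.ord f := by
          intro v
          rw [v.ord_pow]
        rw [Finset.sum_congr rfl fun v _ => by rw [h2 v]]
        refine Finset.sum_subset ?_ ?_
        · intro v hv
          rw [J4.H82.CC.mem_Brm, h2] at hv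
          rw [hS]
          exact fun h => hv (h.mul_left _)
        · intro v _ hv
          rw [J4.H82.CC.mem_Brm, h2, not_not] at hv
          exact Int.emod_eq_zero_of_dvd hv
      obtain ⟨P, hP, hj⟩ := J4.H64.BC.part_sharp hm1 (branch k m f) (fun v => v.ord f)
        (fun v hv => (hS v).1 hv) (J4.H82.CC.brm_sum m (ddeg_divisor _)) (by
          rcases h with h | h | ⟨e, v₀, he, h⟩
          · exact Or.inl h
          · exact Or.inr (Or.inl h)
          · refine Or.inr (Or.inr ⟨e, v₀, he, fun v hv hv0 => ?_⟩)
            exact (h v hv0).resolve_left ((hS v).1 hv))
      refine ⟨P.parts.card, J4.H64.BC.map_of_part _ hM _ P hP,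
        J4.H64.BC.bound_of hm1 (branch k m f) (fun v => v.ord f) (fun v hv => (hS v).1 hv)
          (fun j hj => ?_) _ hj⟩
      rw [← hres]
      exact hn j hj
  have hreg : Reg (X := (curve k K).pow (Fin n)) (Y := ((curve k K).pow (Fin n)).prod X)
      (fun y => (y, p)) := by
    intro L _ _ y hy
    exact ⟨hy, hX L p⟩
  refine torsion_of_hom _ _ fun l hl => ?_
  let lk : ((((curve k K).pow (Fin n)).prod X).Pt →₀ ℤ) →+ k :=
    (Rat.castHom k).toAddMonoidHom.comp l
  have hlk : J4.H18.CV.Kill (((curve k K).pow (Fin n)).prod X)
      (fun y => lk (Finsupp.single y 1)) := by
    intro r hr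
    rw [J4.H18.CV.ev_hom]
    change ((l r : ℚ) : k) = 0
    rw [hl r hr, Rat.cast_zero]
  have h1 := J4.H64.BC.van_prim β hζ χ hg hw0 hw (δ := f) hwf.symm (branch k m f) hM hS b
    (fun i => (hb i).1) (fun i => (hb i).2) (T := Fin n)
    (by rw [Fintype.card_fin, Fintype.card_fin]; exact hT) (c := c) hc
    (fun y => lk (Finsupp.single (y, p) 1)) (J4.H18.CV.Kill.comp hreg hlk) x
  have hfin : ((l (isotypic β χ c x p) : ℚ) : k) = 0 := by
    rw [← h1]
    unfold isotypic
    rw [map_sum, Rat.cast_sum]
    refine Finset.sum_congr rfl fun π _ => ?_
    rw [map_sum, Rat.cast_sum]
    refine Finset.sum_congr rfl fun h _ => ?_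
    rw [map_zsmul, zsmul_eq_mul, Rat.cast_mul, Rat.cast_intCast]
    rfl
  exact_mod_cast hfin

end Pool.Agent.Results.MP_e28333_ag.IsotypicCyclicCovers
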