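import Pool.Agent.J4.H82.CC.W

/-!
# Alternating powers of quotients of products of two curves, one of them multiplicity free

Let `G` be a finite abelian group which acts on two smooth projective curves `C₁`, `C₂` over the
algebraically closed field `k` of characteristic zero, such that `C₁/G` and `C₂/G` are rational
curves, let `S = (C₁ × C₂)/G` be the quotient by the diagonal action, and let the order of all
elements of `G` divide `m`, where `m = 2, 3` or `4`. For a character `χ` of `G` let `q₁ χ`, `q₂ χ` be
the dimensions of the spaces of the holomorphic differential forms on `C₁`, `C₂` on which `G` acts by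
`χ`. By the formula of Chevalley and Weil `q χ + 1 = resid f⁻¹ / m` for `χ ≠ 1`, where `f = w ^ m` for
a function `w ≠ 0` on the curve on which `G` acts by `χ`, and `resid` is the sum of the residues modulo
`m` (between `0` and `m - 1`) of the orders of a function on the quotient. The geometric genus of (a
resolution of the singularities of) `S` is `p_g = ∑ q₁ χ * q₂ χ⁻¹`, the sum over `χ ≠ 1`, and the
irregularity is zero. We assume that the representation of `G` on the holomorphic differential forms
of the first curve is multiplicity free: `q₁ χ ≤ 1` for all `χ`. The second curve is arbitrary. Let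
`ν χ` be numbers with `q₂ χ⁻¹ ≤ ν χ` and, if `m = 4` and `q₁ χ⁻¹ = 0`, also `q₂ χ ≤ 2 ν χ + 1`.

The theorem says: if `n > ∑ q₁ χ * ν χ` then the alternating sum of `a 1 × ... × a n` times a point
of `X` is torsion in the Chow group of `S ^ n × X`, for all zero-cycles `a 1`, ..., `a n` of degree
zero on `S` and all varieties `X`. In other words, `CH_0(M) = 0` (rational coefficients) for the
motive `M = Λ ^ n t(S) ⊗ h(X)`, where `t(S)` is the transcendental motive of `S`, or the whole motive
`h²(S)`, or the motive `h(S) - 1` of the zero-cycles of degree zero. For `m = 2` and `m = 3` one can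
take `ν χ = q₂ χ⁻¹`, and the condition is `n > p_g`; by Mumford's theorem it cannot be weakened if
`k` is the field of the complex numbers. For `X` a point this is Voisin's conjecture for `S`.

Examples. Let `C₁` be the elliptic curve with `j = 0` and `G = μ₃`; the numbers `q₁ χ` are `0` and
`1`. Let `C₂` be the curve `u ^ 3 = h(t)`, `h` a polynomial (or a rational function) with `a` zeros of
order `1` modulo `3` and `b` zeros of order `2` modulo `3` on the projective line. Then `S` is
birational to the elliptic surface

  `y ^ 2 = x ^ 3 + h(t) ^ 2`, with `p_g = (a + 2 b)/3 - 1`,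

and the theorem holds for `n > p_g`. For `h` of degree `6` without multiple zeros these are the
surfaces of a family of dimension `3` of `K3` surfaces; the numbers `q₂ χ` are `1` and `3`. For
`m = 4` and the elliptic curve with `j = 1728` one gets the elliptic surfaces `y ^ 2 = x ^ 3 + h(t) x`;
with `a`, `b`, `c` zeros of order `1`, `2`, `3` modulo `4` the condition is `n > p_g` if
`a ≤ 2 b + 5 c`, where `p_g = (a + 2 b + 3 c)/4 - 1`, and `n > (3 p_g + 2)/2` is sufficient in all
cases. In these examples the second curve is far from balanced, so that the theorem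
`AlternatingPowers` (for the problem MP_386e47_ag), which needs `|q χ - q χ⁻¹| ≤ 1` for both curves,
does not apply. Other multiplicity free curves are all the covers of the projective line with three
branch points, for example the Fermat curves of degrees `3` and `4` with `G = μ₃²`, `μ₄²`.

Relation to the problem. Let all the data be defined over a number field, `k` an algebraic closure,
`X` smooth projective, `S` replaced by a resolution. If `n ≥ 2` all the push-forwards of the
alternating sum to the factors are zero, so that the Abel-Jacobi invariant of this zero-cycle is zero,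
and Q1 says that it is torsion; this is the theorem. Q1 says the same for all the cycles of the
motive `M`.

The idea of the proof. A functional on the zero-cycles of `S ^ n × X` which vanishes on the cycles
rationally equivalent to zero is pulled back to `(C₁ × C₂) ^ n` and decomposed into parts which are
equivariant for `G ^ n` with characters `χ_i` of `G` in the coordinates `i` for the first curve (and
their inverses for the second). The alternating sum of the functional over the permutations which
preserve the characters is alternating in all the coordinates with the same character on the first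
curve, since a functional which is symmetric in two of them is zero (multiplicity free), so it is
symmetric in the coordinates with the same character on the second curve. Then one constructs curves
of configurations of points on the projective lines, where the points on the first curve move one by
one and the points on the second curve by characters, the product of all the values of the
functions `f` is an `m`-th power of a function of the parameter, and a coordinate moves to a branch
point, where the functional is zero. Such a curve exists if for some subset of these blocks the sum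
of the residues of the functions `f`, and also the one of their inverses, is smaller than `m` times
the sum of the numbers `1` + the number of the points in the block. (If `q₁ χ⁻¹ = 0` the points on the
first curve with the character `χ` can be added to the block of `χ` on the second curve: one of the
two inequalities does not change, and the other one needs only `q₂ χ < 2 N` instead of `q₂ χ < N` for
`N` points.)
-/

set_option autoImplicit false

open FF IntermediateField

namespace Pool.Agent.Results.MP_e28333_ag.MultiplicityFree

open Pool.Agent.J4.H17.ZC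

section defs

variable (k : Type) [Field k]

/-- The curve with function field `F` is rational. -/
def Rational (F : Type) [Field F] [Algebra k F] : Prop :=
  ∃ t : F, Transcendental k t ∧ Module.finrank k⟮t⟯ F = 1

/-- The sum of the residues modulo `m`, between `0` and `m - 1`, of the orders of the function `f`
at the points of the curve with function field `F`. -/
noncomputable def resid [CharZero k] {F : Type} [Field F] [Algebra k F] [IsFF k F] (m : ℕ)
    (f : F) : ℤ :=
  (divisor k f).sum fun _ n => n % m

variable {k} {K1 K2 : Type} [Field K1] [Algebra k K1] [Field K2] [Algebra k K2]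
  {G : Type} [CommGroup G]

/-- Two pairs of points are equivalent if they are in the same orbit of the diagonal action of the
group `G`, which acts on the two curves by `α1` and `α2`. -/
def orb (α1 : G →* (K1 ≃ₐ[k] K1)) (α2 : G →* (K2 ≃ₐ[k] K2)) :
    Setoid (Place k K1 × Place k K2) where
  r x y := ∃ g : G, y = (act (α1 g) x.1, act (α2 g) x.2)
  iseqv :=
    { refl := fun x => ⟨1, by rw [map_one, map_one, act_one, act_one]⟩
      symm := by
        rintro x y ⟨g, rfl⟩
        refine ⟨g⁻¹, ?_⟩
        change x = (act (α1 g⁻¹) (act (α1 g) x.1), act (α2 g⁻¹) (act (α2 g) x.2))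
        rw [← act_mul, ← act_mul, ← map_mul, ← map_mul, inv_mul_cancel, map_one, map_one, act_one,
          act_one]
      trans := by
        rintro x y z ⟨g, rfl⟩ ⟨h, rfl⟩
        refine ⟨h * g, ?_⟩
        rw [map_mul, map_mul, act_mul, act_mul] }

/-- The quotient of the product of the two curves by the diagonal action of the group. -/
def quotSurf (α1 : G →* (K1 ≃ₐ[k] K1)) (α2 : G →* (K2 ≃ₐ[k] K2)) : Var k :=
  ((curve k K1).prod (curve k K2)).quot (Quotient.mk (orb α1 α2))

/-- The quotient of the curve with function field `K` by the action `α` of the group `G` is a rational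
curve, and for every character `χ ≠ 1` there is a nonzero function `w` on which `G` acts by `χ` such
that `f = w ^ m` is a function on the quotient with `resid f⁻¹ = m * (q χ + 1)` (that is, `q χ` is the
dimension of the space of the holomorphic differential forms on which `G` acts by `χ`). -/
def Multiplicities [CharZero k] {K : Type} [Field K] [Algebra k K] (α : G →* (K ≃ₐ[k] K))
    [IsFF k (fixedField α.range)] (m : ℕ) (q : (G →* kˣ) → ℕ) : Prop :=
  Rational k (fixedField α.range) ∧ ∀ χ : G →* kˣ, χ ≠ 1 →
    ∃ (w : K) (f : fixedField α.range), w ≠ 0 ∧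
      (∀ g, α g w = algebraMap k K (χ g) * w) ∧ (f : K) = w ^ m ∧
      resid k m f⁻¹ = m * (q χ + 1)

end defs

section proofs

variable {k : Type} [Field k] [CharZero k]

theorem resid_mul_pow {F : Type} [Field F] [Algebra k F] [IsFF k F] (m : ℕ) {f R : F}
    (hf : f ≠ 0) (hR : R ≠ 0) : resid k m (f * R ^ m) = resid k m f := by
  have h1 : ∀ v : Place k F, v.ord (f * R ^ m) = v.ord f + m * v.ord R := by
    intro v
    rw [v.ord_mul hf (pow_ne_zero m hR), v.ord_pow]
  have e1 : resid k m (f * R ^ m) = _ := J4.H82.CC.resid_eq (k := k) m (f * R ^ m)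
  have e2 : resid k m f = _ := J4.H82.CC.resid_eq (k := k) m f
  rw [e1, e2]
  have h2 : J4.H82.CC.Brm (k := k) m (f * R ^ m) = J4.H82.CC.Brm (k := k) m f := by
    ext v
    rw [J4.H82.CC.mem_Brm, J4.H82.CC.mem_Brm, h1]
    rw [(Int.dvd_add_left (Dvd.intro _ rfl))]
  rw [h2]
  refine Finset.sum_congr rfl fun v _ => ?_
  rw [h1, Int.add_mul_emod_self_left]

theorem datum {K : Type} [Field K] [Algebra k K] {G : Type} [CommGroup G] [Fintype G]
    {α : G →* (K ≃ₐ[k] K)} [IsFF k (fixedField α.range)] {m : ℕ}
    {q : (G →* kˣ) → ℕ} (h : Multiplicities α m q) : J4.H82.CC.Datum α m q := by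
  refine ⟨h.1, fun χ hχ => ?_⟩
  obtain ⟨w, f, hw0, hw, hf, hr⟩ := h.2 χ hχ
  obtain ⟨w', f', hw0', hw', hf', hr'⟩ := h.2 χ⁻¹ (J4.H82.CC.inv_ne_one'' hχ)
  refine ⟨f, ⟨w, hw0, hw, hf.symm⟩, ?_, ?_⟩
  · -- the product of the two functions is invariant
    have hinv : w * w' ∈ fixedField α.range := by
      rintro ⟨_, g, rfl⟩
      change α g (w * w') = w * w'
      rw [map_mul, hw, hw', MonoidHom.inv_apply, Units.val_inv_eq_inv_val, map_inv₀]
      have h1 : algebraMap k K ((χ g : kˣ) : k) ≠ 0 := by
        rw [Ne, map_eq_zero]
        exact (χ g).ne_zero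
      field_simp
    let R : fixedField α.range := ⟨w * w', hinv⟩
    have hR0 : R ≠ 0 := fun h => mul_ne_zero hw0 hw0' (congrArg Subtype.val h)
    have hf0 : f ≠ 0 := by
      intro h
      rw [h] at hf
      exact pow_ne_zero m hw0 hf.symm
    have hf0' : f' ≠ 0 := by
      intro h
      rw [h] at hf'
      exact pow_ne_zero m hw0' hf'.symm
    have h1 : f = f'⁻¹ * R ^ m := by
      rw [eq_inv_mul_iff_mul_eq₀ hf0']
      apply Subtype.ext
      push_cast
      rw [hf, hf', mul_pow, mul_comm]
    have h2 := resid_mul_pow (k := k) m (inv_ne_zero hf0') hR0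
    rw [← h1, hr'] at h2
    rw [← J4.H82.CC.resid_eq]
    exact h2
  · rw [← J4.H82.CC.resid_inv]
    exact hr

end proofs

/-- **Theorem.** Let the finite abelian group `G` act on two smooth projective curves `C₁`, `C₂`
(given by their function fields `K1`, `K2`) with rational quotients, let `m = 2, 3` or `4`, let the
orders of the elements of `G` divide `m`, and let `q₁ χ`, `q₂ χ` be the dimensions of the spaces of
holomorphic differential forms with character `χ` (definition `Multiplicities`). Let `q₁ χ ≤ 1` for
all `χ ≠ 1`, let `ν χ` be numbers with `q₂ χ⁻¹ ≤ ν χ` and, if `m = 4` and `q₁ χ⁻¹ = 0`, also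
`q₂ χ ≤ 2 * ν χ + 1`, and let `n > ∑ q₁ χ * ν χ`, the sum over `χ ≠ 1` (if `ν χ = q₂ χ⁻¹` this is the
geometric genus of the surface `S = (C₁ × C₂)/G`). Then for all zero-cycles `a 1`, ..., `a n` of
degree zero on `S`, all varieties `X` and points `p` of `X`, a positive multiple of the alternating
sum of the cycles `a 1 × ... × a n × p` is rationally equivalent to zero on `S ^ n × X`. -/
theorem result {k : Type} [Field k] [CharZero k] [IsAlgClosed k] (K1 K2 : Type) [Field K1]
    [Algebra k K1] [IsFF k K1] [Field K2] [Algebra k K2] [IsFF k K2] (G : Type) [CommGroup G]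
    [Fintype G] (α1 : G →* (K1 ≃ₐ[k] K1)) (α2 : G →* (K2 ≃ₐ[k] K2))
    [IsFF k (fixedField α1.range)] [IsFF k (fixedField α2.range)] {m : ℕ}
    (hm : m = 2 ∨ m = 3 ∨ m = 4) (q1 q2 ν : (G →* kˣ) → ℕ)
    (h1 : Multiplicities α1 m q1) (h2 : Multiplicities α2 m q2) (hq : ∀ χ, χ ≠ 1 → q1 χ ≤ 1)
    (hν : ∀ χ, χ ≠ 1 → q2 χ⁻¹ ≤ ν χ)
    (hν4 : m = 4 → ∀ χ, χ ≠ 1 → q1 χ⁻¹ = 0 → q2 χ ≤ 2 * ν χ + 1) (n : ℕ)
    (hn : ∑ᶠ χ ∈ {χ : G →* kˣ | χ ≠ 1}, q1 χ * ν χ < n)
    (X : Var k) (hX : ∀ (L : Type) [Field L] [Algebra k L] (p : X.Pt), X.IsMor L fun _ => p)
    (a : Fin n → ((quotSurf α1 α2).Pt →₀ ℤ)) (ha : ∀ i, ((a i).sum fun _ c => c) = 0)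
    (p : X.Pt) :
    ∃ N : ℕ, 0 < N ∧ N • Finsupp.mapDomain (fun y => (y, p)) (altSum a) ∈
      RatEq (((quotSurf α1 α2).pow (Fin n)).prod X) := by
  classical
  have hd1 := datum h1
  have hd2 := datum h2
  obtain ⟨qm, hqm⟩ : ∃ qm : Place k K1 × Place k K2 → (quotSurf α1 α2).Pt,
      qm = Quotient.mk (orb α1 α2) := ⟨_, rfl⟩
  have hq : ∀ y : (quotSurf α1 α2).Pt, ∃ x, qm x = y := by
    intro y
    rw [hqm]
    exact Quotient.exists_rep (s := orb α1 α2) y
  choose r hr using hq
  have hreg : Reg (X := (quotSurf α1 α2).pow (Fin n))
      (Y := ((quotSurf α1 α2).pow (Fin n)).prod X) (fun y => (y, p)) := by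
    intro L _ _ y hy
    exact ⟨hy, hX L p⟩
  refine torsion_of_hom _ _ fun l hl => ?_
  let φ : (Fin n → Place k K1 × Place k K2) → k := fun x =>
    ((l (Finsupp.single ((fun i => qm (x i)), p) 1) : ℚ) : k)
  have key : ∀ z : (Fin n → Place k K1 × Place k K2) →₀ ℤ,
      Finsupp.linearCombination ℤ φ z =
        ((l (Finsupp.mapDomain (fun y => (y, p)) (Finsupp.mapDomain
          (fun (x : Fin n → Place k K1 × Place k K2) i => qm (x i)) z)) : ℚ) : k) := by
    intro z
    induction z using Finsupp.induction_linear with
    | zero => simp
    | add u v hu hv =>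
      rw [map_add, hu, hv, Finsupp.mapDomain_add, Finsupp.mapDomain_add, map_add, Rat.cast_add]
    | single x c =>
      rw [Finsupp.linearCombination_single, Finsupp.mapDomain_single, Finsupp.mapDomain_single]
      have h3 : Finsupp.single ((fun i => qm (x i)), p) c =
          c • Finsupp.single ((fun i => qm (x i)), p) (1 : ℤ) := by
        rw [Finsupp.smul_single, smul_eq_mul, mul_one]
      rw [h3, map_zsmul, zsmul_eq_mul, zsmul_eq_mul, Rat.cast_mul, Rat.cast_intCast]
  have hφ : ∀ z ∈ RatEq (((curve k K1).prod (curve k K2)).pow (Fin n)),
      Finsupp.linearCombination ℤ φ z = 0 := by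
    intro z hz
    rw [key]
    have h3 := quot_mem (X := (curve k K1).prod (curve k K2)) qm hz
    have h3' : Finsupp.mapDomain (fun (x : Fin n → Place k K1 × Place k K2) i => qm (x i)) z ∈
        RatEq ((quotSurf α1 α2).pow (Fin n)) := by
      subst hqm
      exact h3
    have h4 := hl _ (hreg.push h3')
    exact_mod_cast h4
  have hinv : ∀ (g : Fin n → G) (x : Fin n → Place k K1 × Place k K2),
      φ (J4.H82.CC.ga α1 α2 g g x) = φ x := by
    intro g x
    have h3 : (fun i => qm (J4.H82.CC.ga α1 α2 g g x i)) = fun i => qm (x i) := by
      funext i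
      rw [hqm]
      exact (Quotient.sound (s := orb α1 α2)
        (show (orb α1 α2).r (x i) _ from ⟨g i, rfl⟩)).symm
    change ((l (Finsupp.single ((fun i => qm (J4.H82.CC.ga α1 α2 g g x i)), p) 1) : ℚ) : k) = _
    rw [h3]
  have hfin := J4.H82.CC.conclusion2 α1 α2 hm hd1 hd2 hq hν hν4 hn hφ hinv
    (fun i => Finsupp.mapDomain r (a i)) (by
      intro i
      have h3 := ha i
      change (Finsupp.mapDomain r (a i)).sum (fun _ m => m) = 0
      rw [Finsupp.sum_mapDomain_index (fun _ => rfl) (fun _ _ _ => rfl)]
      exact h3)
  rw [key, map_altSum] at hfin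
  have h4 : (fun i => Finsupp.mapDomain qm (Finsupp.mapDomain r (a i))) = a := by
    funext i
    rw [← Finsupp.mapDomain_comp]
    have : qm ∘ r = id := funext hr
    rw [this, Finsupp.mapDomain_id]
  rw [h4] at hfin
  exact_mod_cast hfin

end Pool.Agent.Results.MP_e28333_ag.MultiplicityFree
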